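import Pool.Agent.Z700.Defs3
import Pool.Agent.Y655.Z7.Rte

/-!
# Roots and number of points of the twist (project Z701, jobs RTE and XRS)
-/

set_option autoImplicit false

namespace Pool.Agent.Y614.Z

open Finset
open Pool.Agent.Z700 (pr xrt lres)
open Pool.Agent.Z701
open Pool.Agent.Y700 (Rt)
open Pool.Agent.Y687 (cnt NN Inert cnt_twist cnt_E14 SS_facts sq_seven sq_two prod_mod_four
  split_not_dvd two_ne seven_ne)
open Pool.Agent.W97.MT (ap E14)

section

variable {p : ℕ} [Fact p.Prime]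

theorem chi_eq_jac (M : ℕ) (hp : p ≠ 2) (hM4 : M % 4 = 1) :
    quadraticChar (ZMod p) (M : ZMod p) = jacobiSym p M ∧
    quadraticChar (ZMod p) (M : ZMod p) = jacobiSym M p := by
  have hpp : p.Prime := Fact.out
  have h6 : quadraticChar (ZMod p) (M : ZMod p) = legendreSym p (M : ℤ) := by
    rw [legendreSym]
    norm_num
  have h7 : quadraticChar (ZMod p) (M : ZMod p) = jacobiSym M p := by
    rw [h6, jacobiSym.legendreSym.to_jacobiSym]
  refine ⟨?_, h7⟩
  rw [h7]
  exact jacobiSym.quadratic_reciprocity_one_mod_four hM4 (hpp.odd_of_ne_two hp)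

theorem chi_pm {a : ZMod p} (ha : a ≠ 0) :
    (IsSquare a ∧ quadraticChar (ZMod p) a = 1) ∨ (¬ IsSquare a ∧ quadraticChar (ZMod p) a = -1) := by
  rcases quadraticChar_dichotomy ha with h | h
  · exact Or.inl ⟨(quadraticChar_one_iff_isSquare ha).1 h, h⟩
  · exact Or.inr ⟨quadraticChar_neg_one_iff_not_isSquare.1 h, h⟩

/-- The roots of `x² + 13 m x + 128 m²` have the square class of `m` times a constant. -/
theorem Rt_iff (h8 : p % 8 = 1) (h7 : p % 7 = 1 ∨ p % 7 = 2 ∨ p % 7 = 4) :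
    ∃ c : ℤ, (c = 1 ∨ c = -1) ∧ ∀ m : ℕ, (m : ZMod p) ≠ 0 →
      (Rt p m ↔ quadraticChar (ZMod p) (m : ZMod p) * c = -1) := by
  have hp : p.Prime := Fact.out
  have h4 : p % 4 = 1 := by omega
  have q7 : p ≠ 7 := by omega
  have n2 : (2 : ZMod p) ≠ 0 := two_ne hp (by omega)
  obtain ⟨r, hr⟩ := (sq_seven p h4 q7).2 h7
  obtain ⟨s, hs⟩ := (sq_two p h4).2 h8
  obtain ⟨y1, hy1⟩ : ∃ y : ZMod p, y = (-13 + 7 * r) / 2 := ⟨_, rfl⟩
  obtain ⟨y2, hy2⟩ : ∃ y : ZMod p, y = (-13 - 7 * r) / 2 := ⟨_, rfl⟩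
  have e1 : 2 * y1 = -13 + 7 * r := by rw [hy1]; field_simp
  have e2 : 2 * y2 = -13 - 7 * r := by rw [hy2]; field_simp
  have hsum : y1 + y2 = -13 := by
    apply mul_left_cancel₀ n2
    linear_combination e1 + e2
  have hprod : y1 * y2 = 128 := by
    apply mul_left_cancel₀ (mul_ne_zero n2 n2)
    linear_combination (2 * y2) * e1 + (-13 + 7 * r) * e2 + 49 * hr
  have h128 : (128 : ZMod p) ≠ 0 := by
    rw [show (128 : ZMod p) = 2 ^ 7 by norm_num]; exact pow_ne_zero _ n2
  have hy10 : y1 ≠ 0 := by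
    rintro rfl
    apply h128
    rw [← hprod]; ring
  have hy20 : y2 ≠ 0 := by
    rintro rfl
    apply h128
    rw [← hprod]; ring
  have hchi : quadraticChar (ZMod p) y1 = quadraticChar (ZMod p) y2 := by
    have h1 : IsSquare (128 : ZMod p) := ⟨8 * s, by linear_combination 64 * hs⟩
    have h2 : quadraticChar (ZMod p) (y1 * y2) = 1 := by
      rw [hprod]; exact (quadraticChar_one_iff_isSquare h128).2 h1
    rw [map_mul] at h2
    rcases quadraticChar_dichotomy hy10 with h | h <;> rcases quadraticChar_dichotomy hy20 with h' | h' <;>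
      rw [h, h'] at h2 ⊢ <;> omega
  refine ⟨quadraticChar (ZMod p) y1, quadraticChar_dichotomy hy10, fun m hm => ?_⟩
  have hfac : ∀ x : ZMod p, x ^ 2 + 13 * (m : ZMod p) * x + 128 * (m : ZMod p) ^ 2 =
      (x - m * y1) * (x - m * y2) := by
    intro x
    linear_combination (m : ZMod p) * x * hsum - (m : ZMod p) ^ 2 * hprod
  have hm1 : (m : ZMod p) * y1 ≠ 0 := mul_ne_zero hm hy10
  have hm2 : (m : ZMod p) * y2 ≠ 0 := mul_ne_zero hm hy20
  have hc2 : quadraticChar (ZMod p) ((m : ZMod p) * y2) =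
      quadraticChar (ZMod p) ((m : ZMod p) * y1) := by rw [map_mul, map_mul, hchi]
  rw [← map_mul]
  constructor
  · intro h
    have h1 := h (m * y1) (by rw [hfac]; ring)
    exact quadraticChar_neg_one_iff_not_isSquare.2 h1
  · intro h x hx
    rw [hfac] at hx
    rcases mul_eq_zero.1 hx with hx | hx
    · rw [sub_eq_zero.1 hx]
      exact quadraticChar_neg_one_iff_not_isSquare.1 h
    · rw [sub_eq_zero.1 hx]
      exact quadraticChar_neg_one_iff_not_isSquare.1 (hc2.trans h)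

/-- The square class of the product of inert primes. -/
theorem chi_pr (h8 : p % 8 = 1) (S : Finset ℕ) (hS : ∀ q ∈ S, Nr q) :
    (quadraticChar (ZMod p) ((pr S : ℕ) : ZMod p) = 1 ∧ Even (ind S p)) ∨
      (quadraticChar (ZMod p) ((pr S : ℕ) : ZMod p) = -1 ∧ Odd (ind S p)) := by
  classical
  have hp : p.Prime := Fact.out
  induction S using Finset.induction_on with
  | empty =>
    left
    simp [pr, ind]
  | insert q T hq ih =>
    have ih' := ih fun q hq => hS q (Finset.mem_insert_of_mem hq)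
    obtain ⟨qp, q8, q7⟩ := hS q (Finset.mem_insert_self _ _)
    have hpq : p ≠ q := by rintro rfl; omega
    have hq0 : (q : ZMod p) ≠ 0 := by
      intro h
      rw [ZMod.natCast_eq_zero_iff] at h
      exact hpq ((Nat.prime_dvd_prime_iff_eq hp qp).1 h)
    have e1 : pr (insert q T) = q * pr T := by
      unfold Pool.Agent.Z700.pr
      rw [Finset.prod_insert hq]
    have e2 : ind (insert q T) p = lres p q + ind T p := by
      unfold Pool.Agent.Z701.ind
      rw [Finset.sum_insert hq]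
    obtain ⟨j1, j2⟩ := chi_eq_jac (p := p) q (by omega) (by omega)
    have h3 : (quadraticChar (ZMod p) (q : ZMod p) = 1 ∧ lres p q = 0) ∨
        (quadraticChar (ZMod p) (q : ZMod p) = -1 ∧ lres p q = 1) := by
      unfold Pool.Agent.Z700.lres
      rw [← j1, ← j2]
      rcases quadraticChar_dichotomy hq0 with h | h
      · left
        rw [h]
        exact ⟨rfl, by norm_num⟩
      · right
        rw [h]
        exact ⟨rfl, by norm_num⟩
    rw [e1, e2, Nat.cast_mul, map_mul]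
    rcases h3 with ⟨a, b⟩ | ⟨a, b⟩ <;> rcases ih' with ⟨c, d⟩ | ⟨c, d⟩ <;> rw [a, b, c]
    · left; exact ⟨by norm_num, by rw [zero_add]; exact d⟩
    · right; exact ⟨by norm_num, by rw [zero_add]; exact d⟩
    · right; exact ⟨by norm_num, d.one_add⟩
    · left; exact ⟨by norm_num, d.one_add⟩

end

theorem pr_ne {p : ℕ} (hp : Sp p) {S : Finset ℕ} (hS : ∀ q ∈ S, Nr q) :
    ((pr S : ℕ) : ZMod p) ≠ 0 := by
  intro h
  rw [ZMod.natCast_eq_zero_iff] at h
  exact split_not_dvd (p := p) hp (S := S) hS h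

theorem t_XRS : S_XRS := by
  intro p hp S hS
  have : Fact p.Prime := ⟨hp.1⟩
  obtain ⟨c, hc, hR⟩ := Rt_iff (p := p) hp.2.1 hp.2.2
  have h1 := hR 1 (by simp)
  have h2 := hR (pr S) (pr_ne hp hS)
  have h3 := chi_pr hp.2.1 S hS
  rw [Nat.cast_one, map_one, one_mul] at h1
  unfold xrS Pool.Agent.Z700.xrt
  rcases hc with rfl | rfl <;> rcases h3 with ⟨h3, h4⟩ | ⟨h3, h4⟩ <;> rw [h3] at h2
  · rw [if_neg (fun h => absurd (h2.1 h) (by norm_num)), if_neg (fun h => absurd (h1.1 h) (by norm_num)),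
      zero_add]
    constructor
    · intro h; exact absurd h (by decide)
    · intro h; exact absurd h (Int.not_odd_iff_even.2 h4)
  · rw [if_pos (h2.2 (by norm_num)), if_neg (fun h => absurd (h1.1 h) (by norm_num)), zero_add]
    exact ⟨fun _ => h4, fun _ => odd_one⟩
  · rw [if_pos (h2.2 (by norm_num)), if_pos (h1.2 (by norm_num))]
    exact ⟨fun _ => h4.one_add, fun _ => odd_one⟩
  · rw [if_neg (fun h => absurd (h2.1 h) (by norm_num)), if_pos (h1.2 (by norm_num))]
    constructor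
    · intro h; exact absurd h (by decide)
    · intro h; exact absurd h (Int.not_odd_iff_even.2 h4.one_add)

theorem NE_eq (p : ℕ) : Pool.Agent.Z700.NE p = cnt 5805 (-285714) p + 1 := by
  unfold Pool.Agent.Z700.NE Pool.Agent.Y687.cnt
  congr 1
  refine Nat.card_congr (Equiv.subtypeEquivRight fun q => ?_)
  push_cast
  rw [← sub_eq_add_neg]

theorem t_RTE : Pool.Agent.Z701.S_RTE := by
  intro p hp S hS
  have : Fact p.Prime := ⟨hp.1⟩
  obtain ⟨c, hc, hR⟩ := Rt_iff (p := p) hp.2.1 hp.2.2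
  have hm4 : pr S % 4 = 1 := prod_mod_four (S := S) hS
  have hpm : ¬ p ∣ pr S := split_not_dvd (p := p) hp (S := S) hS
  have h8 := hp.2.1
  have hp3 : p ≠ 3 := by rintro rfl; omega
  have h1 := hR 1 (by simp)
  have h2 := hR (pr S) (pr_ne hp hS)
  rw [Nat.cast_one, map_one, one_mul] at h1
  have k0 := Pool.Agent.Y655.Z7.t_RTE p hp.1 hp.2.1 hp.2.2
  rw [NE_eq] at k0
  obtain ⟨-, k, hk⟩ := SS_facts p hp.1 hp.2.1 hp.2.2
  have k1 := cnt_twist 5805 (-285714) (pr S) p (by omega) hm4 hpm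
  have k2 := cnt_E14 p hp.1 (by omega) hp3
  rw [← (chi_eq_jac (p := p) (pr S) (by omega) hm4).1] at k1
  unfold Pool.Agent.Y687.NN
  rcases quadraticChar_dichotomy (pr_ne hp hS) with h | h
  · rw [h, one_mul] at h2
    rw [h, one_mul] at k1
    rw [h2, ← h1, k0]
    have : cnt (5805 * ((pr S : ℕ) : ℤ) ^ 2) (-285714 * ((pr S : ℕ) : ℤ) ^ 3) p =
        cnt 5805 (-285714) p := by omega
    rw [this]
  · rw [h] at h2 k1
    have h5 : Rt p (pr S) ↔ ¬ Rt p 1 := by
      rw [h1, h2]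
      rcases hc with rfl | rfl <;> norm_num
    rw [h5, k0]
    omega

end Pool.Agent.Y614.Z
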